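import Pool.Agent.Helper3.GU.Cubic
import Pool.Graph.R_seed8.R904.TR.Res

/-!
# Bass's finite generation conjecture and the graphs with at most three edges at each vertex

`KThy` lists the properties of Quillen's groups `K'_n(X)` of schemes of finite type over `ℤ` which are
used: localization, homotopy invariance for the affine bundles of Jouanolou, the fundamental theorem, and
finite generation in dimension at most one (Quillen, Harder). `K.Fin X` means that all groups `K'_n(X)`
are finitely generated, and `K.Bass` is the conjecture of Bass: `K.Fin X` for all regular schemes `X` of
finite type over `ℤ`.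

For a simple graph `G` with the vertices `0, …, n` let `K_G` be the Kirchhoff polynomial: the determinant of
the Laplacian matrix (in one variable for each edge) without the row and the column of the vertex `0`, that
is the sum over the spanning trees of `G` of the products of the variables of their edges, and let `Ψ_G` be
the first Symanzik polynomial (of Feynman integrals), the sum over the spanning trees of the products of
the variables of the edges that are not in the tree. `Subcubic G`: every vertex of `G` has at most three
neighbours.

**Theorem.** The following statements are equivalent.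

* The conjecture of Bass.
* `K.Fin X` for all schemes `X` of finite type over `ℤ`, regular or not.
* `K.Fin` for the complements of the graph hypersurfaces `K_G = 0` in the affine spaces over `ℤ`, `G` with at
  most three neighbours at each vertex; these are the principal open sets `K_G ≠ 0`.
* `K.Fin` for these hypersurfaces `K_G = 0`.
* `K.Fin` for the smooth affine schemes `K_G · ∏ x_e ≠ 0`, open in the tori.
* `K.Fin` for the smooth affine schemes `Ψ_G · ∏ x_e ≠ 0`, the domains of the Feynman integrands of `G`.

So a counterexample to the conjecture of Bass exists if and only if one exists among the rings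
`ℤ[x_e, 1/x_e, 1/K_G]` of the graphs with at most three edges at each vertex.
The proof combines the universality theorem for graph hypersurfaces `cubic_tfae` (valid for all properties
closed under the standard operations) with the theorem on trilinear forms of the library.
-/

set_option autoImplicit false

open CategoryTheory AlgebraicGeometry Pool.Agent.Y116.UV Pool.Agent.Z125.UN Pool.Agent.R904.TR
  Pool.Agent.R904.CU Pool.Agent.Helper3.GU

namespace Pool.Agent.Results.MP_e17fa799_al.GraphHypersurfaces

/-- **The conjecture of Bass and graph hypersurfaces.** See the explanations above. -/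
theorem result (K : KThy) :
    List.TFAE [K.Bass,
      ∀ (X : Scheme.{0}) (f : X ⟶ Spec (.of ℤ)), FinType ℤ X f → K.Fin X,
      ∀ (n : ℕ) (G : SimpleGraph (Fin (n + 1))), Subcubic G → K.Fin (graphS ℤ G).left,
      ∀ (n : ℕ) (G : SimpleGraph (Fin (n + 1))), Subcubic G → K.Fin (graphH ℤ G).left,
      ∀ (n : ℕ) (G : SimpleGraph (Fin (n + 1))), Subcubic G → K.Fin (graphT ℤ G).left,
      ∀ (n : ℕ) (G : SimpleGraph (Fin (n + 1))), Subcubic G → K.Fin (feynmanT ℤ G).left] := by
  have hP : Bnd False fun X : Sch ℤ => K.Fin X.left := bnd K False (fin_dim_one K ℤ dim_int)
  have h01 : Presents ({0, 1} : Set ℤ) := presents_zero_one (R := ℤ) fun x => ⟨x, rfl⟩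
  have h := cubic_tfae (mot_of_bnd hP) h01
  rw [Statements] at h
  rw [List.tfae_cons_cons]
  have hX : (∀ X : Sch ℤ, FT False X → K.Fin X.left) ↔
      ∀ (X : Scheme.{0}) (f : X ⟶ Spec (.of ℤ)), FinType ℤ X f → K.Fin X := by
    constructor
    · intro h X f hf
      exact h (Over.mk f : Sch ℤ) ⟨hf.1, hf.2, fun h => h.elim⟩
    · intro h X hX
      exact h X.left _ (ft_int hX)
  refine ⟨?_, ?_⟩
  · constructor
    · intro hb
      rw [← hX]
      exact fun X hX => universal (R := ℤ) (S := {0, 1}) hP.toUni (Or.inl rfl) (Or.inr rfl)
        (fun a b c T hT => (bass_iff K).mp hb a b c T fun i j k => hT i j k) h01 X hX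
    · intro h X f hf _
      exact h X f hf
  · rw [List.tfae_cons_cons] at h ⊢
    exact ⟨hX.symm.trans h.1, h.2⟩

end Pool.Agent.Results.MP_e17fa799_al.GraphHypersurfaces
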