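import Pool.Agent.Helper13.RM.PCut
import Pool.Agent.Helper13.GZ.Loc
import Pool.Agent.Helper13.GZ.Reg

/-!
# The conjecture of Bass in degree zero, one dimension at a time, and configurations of points in the plane

For a commutative noetherian ring `A` let `G_0(A) = K'_0(Spec A)` be the Grothendieck group of the finitely
generated `A`-modules: the free abelian group on these modules modulo the relations `[M] = [L] + [N]` for the
exact sequences `0 → L → M → N → 0` (`G0 A`). The conjecture of Bass (Q1) in degree zero says that
`G_0(A)` is a finitely generated abelian group for all regular rings `A` of finite type over `ℤ` (and similarly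
for regular schemes that are not affine). Nothing is assumed here about K-theory: all the
statements below are on this concrete group, and all is proved.

A matroid `M` of rank three on the set `Fin 4 ⊕ Fin n` is framed if any three of the four elements of
`Fin 4` form a base; it is simple if any two elements are independent. `ModR ℤ M` is the ring of functions
on the moduli space of the configurations of `n + 4` different points in the projective plane in
which exactly the triples prescribed by `M` are collinear, modulo projective transformations. In
coordinates: the first four points are the points of `e_1, e_2, e_3, e_1 + e_2 + e_3`, and the other ones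
have normalised coordinates `(x, y, 1)` or `(x, 1, 0)`; three vectors have an invertible
determinant if they are a base of `M`, and the determinant zero otherwise. So `ModR ℤ M` is a quotient of
a polynomial ring over `ℤ` by the determinants of the triples which are not bases, localized at the product
of the determinants of the other triples. `SmoothModZ d M` says that `M` is framed and simple and that
`ModR ℤ M` is a domain of dimension at most `d` which is smooth over `ℤ` or over a prime field.

**Theorem.** (1) For each ring `A` of finite type over `ℤ` there is a finite list `L` of such matroids with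
`SmoothModZ (dim A) M` for `M` in `L`, such that `G_0(A)` is finitely generated if the groups
`G_0(ModR ℤ M)`, `M` in `L`, are finitely generated.

(2) For every `d` (a natural number, or `∞`) the following are equivalent.

* `G_0(A)` is finitely generated for all rings `A` of finite type over `ℤ` with `dim A ≤ d`.
* `G_0(A)` is finitely generated for all regular rings `A` of finite type over `ℤ` with `dim A ≤ d`
  (the conjecture of Bass in degree zero for affine schemes of dimension at most `d`).
* `G_0(A)` is finitely generated for all domains `A` with `dim A ≤ d` which are smooth over `ℤ` or over a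
  prime field.
* `G_0(ModR ℤ M)` is finitely generated for all `M` with `SmoothModZ d M`.

For `d ≤ 2` these statements are known (Roquette, Bloch, Kato, Saito); the first open case `d = 3` is a
statement on the moduli spaces of dimension three.

Proof. The sequences `G_0(A/w) → G_0(A) → G_0(A_w) → 0` are exact (`Pool.Agent.Helper13.GZ`, proved with lattices
in modules over `A_w`), and every domain `B` of finite type over `ℤ` has a localization `B_b`, `b ≠ 0`, which
is also a localization of a ring `ModR ℤ M` (`Pool.Agent.Helper13.RM`; a version of the universality theorem
of Mnëv in which `Spec B_b` itself is an open subscheme of the moduli space). Then noetherian induction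
(`modP`, `listP`, for arbitrary properties with three formal closure properties). Smooth
algebras over regular rings are regular (`regular_of_smooth`; this was not in Mathlib).
-/

set_option autoImplicit false

open Pool.Agent.Helper13.RM Pool.Agent.Helper13.GZ

namespace Pool.Agent.Results.MP_e17fa799_al.GrothendieckGroups

/-- Finite generation of `G_0` can be cut by one element. -/
theorem pcut_G0 : PCut ℤ fun A _ _ => AddGroup.FG (G0 A) where
  iso _ e h := by
    obtain ⟨e⟩ := e
    exact fg_of_equiv e.symm.toRingEquiv h
  zero _ _ _ _ := fg_zero
  loc A _ _ b hA h := by
    have : IsNoetherianRing A := Algebra.FiniteType.isNoetherianRing ℤ A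
    exact fg_of_loc b h
  cut A _ _ w hA h1 h2 := by
    have : IsNoetherianRing A := Algebra.FiniteType.isNoetherianRing ℤ A
    exact fg_of_cut w h1 h2

lemma regular_of_smoothZ {A : Type} [CommRing A] (h : SmoothZ A) : IsRegularRing A := by
  rcases h with ⟨j, hj⟩ | ⟨p, hp, j, hj⟩
  · exact regular_of_smooth ℤ A
  · have : Fact p.Prime := hp
    exact regular_of_smooth (ZMod p) A

lemma ft_of_smoothZ {A : Type} [CommRing A] [i : Algebra ℤ A] (h : SmoothZ A) :
    Algebra.FiniteType ℤ A := by
  rcases h with ⟨j, hj⟩ | ⟨p, hp, j, hj⟩
  · obtain rfl : i = j := Subsingleton.elim _ _
    infer_instance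
  · obtain rfl : i = Ring.toIntAlgebra A := Subsingleton.elim _ _
    have h1 : Algebra.FiniteType ℤ (ZMod p) := inferInstance
    have h2 : Algebra.FiniteType (ZMod p) A := inferInstance
    exact Algebra.FiniteType.trans h1 h2

/-- `G_0(A)` is finitely generated. -/
def FinGen (A : Type) [CommRing A] : Prop := AddGroup.FG (G0 A)

/-- `G_0(A)` is finitely generated for all rings `A` of finite type over `ℤ` with `dim A ≤ d`. -/
def AllFG (d : WithBot ℕ∞) : Prop := ∀ (A : Type) [CommRing A], Algebra.FiniteType ℤ A →
  ringKrullDim A ≤ d → FinGen A

/-- The conjecture of Bass in degree zero for affine schemes of dimension at most `d`: `G_0(A)` is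
finitely generated for all regular rings `A` of finite type over `ℤ` with `dim A ≤ d`. -/
def BassZero (d : WithBot ℕ∞) : Prop := ∀ (A : Type) [CommRing A], Algebra.FiniteType ℤ A →
  IsRegularRing A → ringKrullDim A ≤ d → FinGen A

/-- `G_0(A)` is finitely generated for all domains `A` with `dim A ≤ d` which are smooth over `ℤ` or over a
prime field. -/
def SmoothFG (d : WithBot ℕ∞) : Prop := ∀ (A : Type) [CommRing A] [IsDomain A], SmoothZ A →
  ringKrullDim A ≤ d → FinGen A

/-- `G_0(ModR ℤ M)` is finitely generated for all `M` with `SmoothModZ d M`. -/
def ModuliFG (d : WithBot ℕ∞) : Prop := ∀ (n : ℕ) (M : Matroid (Fin 4 ⊕ Fin n)), SmoothModZ d M →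
  FinGen (ModR ℤ M)

/-- **The conjecture of Bass in degree zero and moduli spaces of planar configurations.** See the
explanations above. -/
theorem result :
    (∀ (A : Type) [CommRing A], Algebra.FiniteType ℤ A →
      ∃ L : List Mat, (∀ M ∈ L, SmoothModZ (ringKrullDim A) M.2) ∧
        ((∀ M ∈ L, FinGen (ModR ℤ M.2)) → FinGen A)) ∧
    ∀ d : WithBot ℕ∞, List.TFAE [AllFG d, BassZero d, SmoothFG d, ModuliFG d] := by
  refine ⟨fun A _ hA => ?_, fun d => ?_⟩
  · obtain ⟨L, hL, h⟩ := listP A
    exact ⟨L, hL, fun hM => h _ pcut_G0 hM⟩
  · tfae_have 1 → 2 := fun h A _ hA _ hd => h A hA hd
    tfae_have 2 → 3 := fun h A _ _ hA hd => h A (ft_of_smoothZ hA) (regular_of_smoothZ hA) hd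
    tfae_have 3 → 4 := fun h n M hM => by
      have := hM.domain
      refine h _ hM.smooth ?_
      rw [← PrimeSpectrum.topologicalKrullDim_eq_ringKrullDim]
      exact hM.dim
    tfae_have 4 → 1 := fun h A _ hA hd => modP pcut_G0 d h A hd
    tfae_finish

end Pool.Agent.Results.MP_e17fa799_al.GrothendieckGroups
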