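import Pool.Agent.Helper59.IP.Main
import Pool.Graph.R_seed8.R904.TR.Res

/-!
# Bass's finite generation conjecture and independence polynomials of graphs

`KThy` lists the properties of Quillen's groups `K'_n(X)` of schemes of finite type over `ℤ` which are
used: localization, homotopy invariance for the affine bundles of Jouanolou, the fundamental theorem, and
finite generation in dimension at most one (Quillen, Harder). `K.Fin X` means that all groups `K'_n(X)`
are finitely generated, and `K.Bass` is the conjecture of Bass: `K.Fin X` for all regular schemes `X` of
finite type over `ℤ`.

For a graph `G` with the vertices `V` let `I_G = ∑_s ∏_{v ∈ s} x_v`, the sum over the independent sets `s`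
(sets of pairwise non-adjacent vertices) of `G`: the multivariate independence polynomial. It is the
partition function of the lattice gas on `G` with hard core interaction and activities `x_v`. `G` runs
through the graphs whose vertices are covered by three cliques (`ThreeCliques`), so that an independent set
has at most three elements and `I_G` is a cubic polynomial: the sum of `∏_{v ∈ s} x_v` over all cliques `s`
of the 3-colourable complementary graph.

**Theorem.** The following statements are equivalent.

* The conjecture of Bass.
* `K.Fin X` for all schemes `X` of finite type over `ℤ`, regular or not.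
* `K.Fin` for the complements of the hypersurfaces `I_G = 0` in the affine spaces over `ℤ`, `G` covered by
  three cliques; these are the principal open sets `I_G ≠ 0`.
* `K.Fin` for these cubic hypersurfaces `I_G = 0`.
* `K.Fin` for the smooth affine schemes `I_G · ∏ x_v ≠ 0`, open in the tori.
* `K.Fin` for the intersections of the hypersurfaces `I_G = 0` with the tori.

So a counterexample to the conjecture of Bass exists if and only if one exists among the smooth rings
`ℤ[x_v, 1/x_v, 1/I_G]` of the graphs covered by three cliques.

The universality theorem for these polynomials is `Pool.Agent.Helper59.IP.ind_tfae`: a property of schemes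
of finite type that is closed under closed-open decompositions and the usual affine bundles is true for all
schemes if it is true for the complements of the hypersurfaces `I_G = 0`. The idea: let `Γ` be covered by
two cliques and `A_1, …, A_m` sets of vertices. Add to `Γ` a vertex `w` adjacent to `Γ`, a clique of
vertices `v_r` adjacent to `w` and to the vertices of `Γ` outside of `A_r`, and a vertex `u` adjacent to the
`v_r`. The graph is covered by three cliques and has the polynomial `(1 + u)(w + I_Γ) + ∑_r v_r I_{A_r}`.
Cutting along `w + I_Γ = 0`, passing from the invertible values of `∑ v_r I_{A_r}` to the value one, and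
using Jouanolou's device one arrives at the common zeros of the polynomials `I_{A_r}` of the induced
subgraphs, and these describe the trilinear hypersurfaces `T = 1`, which are universal by a theorem of the
library.
-/

set_option autoImplicit false

open CategoryTheory AlgebraicGeometry Pool.Agent.Y116.UV Pool.Agent.Z125.UN Pool.Agent.R904.TR
  Pool.Agent.R904.CU Pool.Agent.Helper3.GU Pool.Agent.Helper59.IP

namespace Pool.Agent.Results.MP_e17fa799_al.IndependencePolynomials

/-- **The conjecture of Bass and independence polynomials of graphs.** See the explanations above. -/
theorem result (K : KThy) :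
    List.TFAE [K.Bass,
      ∀ (X : Scheme.{0}) (f : X ⟶ Spec (.of ℤ)), FinType ℤ X f → K.Fin X,
      ∀ (n : ℕ) (G : SimpleGraph (Fin n)), ThreeCliques G → K.Fin (indS ℤ G).left,
      ∀ (n : ℕ) (G : SimpleGraph (Fin n)), ThreeCliques G → K.Fin (indH ℤ G).left,
      ∀ (n : ℕ) (G : SimpleGraph (Fin n)), ThreeCliques G → K.Fin (indT ℤ G).left,
      ∀ (n : ℕ) (G : SimpleGraph (Fin n)), ThreeCliques G → K.Fin (indHT ℤ G).left] := by
  have hP : Bnd False fun X : Sch ℤ => K.Fin X.left := bnd K False (fin_dim_one K ℤ dim_int)
  have h01 : Presents ({0, 1} : Set ℤ) := presents_zero_one (R := ℤ) fun x => ⟨x, rfl⟩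
  have h := ind_tfae (mot_of_bnd hP) h01
  rw [IndStatements] at h
  rw [List.tfae_cons_cons]
  have hX : (∀ X : Sch ℤ, FT False X → K.Fin X.left) ↔
      ∀ (X : Scheme.{0}) (f : X ⟶ Spec (.of ℤ)), FinType ℤ X f → K.Fin X := by
    constructor
    · intro h X f hf
      exact h (Over.mk f : Sch ℤ) ⟨hf.1, hf.2, fun h => h.elim⟩
    · intro h X hX
      exact h X.left _ (ft_int hX)
  refine ⟨?_, ?_⟩
  · constructor
    · intro hb
      rw [← hX]
      exact fun X hX => universal (R := ℤ) (S := {0, 1}) hP.toUni (Or.inl rfl) (Or.inr rfl)
        (fun a b c T hT => (bass_iff K).mp hb a b c T fun i j k => hT i j k) h01 X hX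
    · intro h X f hf _
      exact h X f hf
  · rw [List.tfae_cons_cons] at h ⊢
    exact ⟨hX.symm.trans h.1, h.2⟩

end Pool.Agent.Results.MP_e17fa799_al.IndependencePolynomials
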