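import Pool.Agent.Helper13.RM.CList
import Pool.Graph.R_seed8.R904.CU.KMain

/-!
# The conjecture of Bass, degree by degree and dimension by dimension, and configurations of points in the
plane

`KPrime` (Pool/Graph/R_seed8/R904/CU/KDefs.lean) lists the theorems of Quillen on the groups `K'_n(X)` of
the schemes `X` of finite type over `ℤ`. For most of the theorem below only two of them are used: isomorphic
schemes have isomorphic groups, and the sequences `K'_n(Z) → K'_n(X) → K'_n(X ∖ Z)` are exact in the middle.

A matroid `M` of rank three on the set `Fin 4 ⊕ Fin m` is **framed** if any three of the four elements of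
`Fin 4` form a base; it is **simple** if any two elements are independent. Let `modS ℤ M` be the moduli space
over `ℤ` of the configurations of `m + 4` different points in the projective plane in which exactly the
triples prescribed by `M` are collinear, modulo projective transformations. In coordinates: the first four
points are the points of `e_1, e_2, e_3, e_1 + e_2 + e_3`, and the other ones have normalised coordinates
`v_k = (x, y, 1)` or `(x, 1, 0)`; three vectors have an invertible determinant if they are a base of `M`, and
the determinant zero otherwise. Over a finite field with `q` elements the number of points of `modS ℤ M` is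
the number of the representations of the matroid `M` up to equivalence.

**Theorem.** (1) For each `n` and each `d` the following are equivalent.

* `K'_n(X)` is finitely generated for all schemes `X` of finite type over `ℤ` of dimension at most `d`.
* `K'_n(X)` is finitely generated for all affine schemes `X` of dimension at most `d` which are smooth over
  `ℤ` or over a prime field (so that they are regular, and `K'_n(X) = K_n(X)`).
* `K'_n(X)` is finitely generated for the moduli spaces `X = modS ℤ M` of dimension at most `d` which are
  integral and smooth over `ℤ` or over a prime field (`SmoothModZ`), `M` a simple framed matroid of rank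
  three.

(2) For every infinite set `D` of natural numbers the conjecture of Bass is equivalent to the finite
generation of the groups `K'_n(modS ℤ M)` for all `n` in `D` and all simple framed matroids `M` of rank three
for which `modS ℤ M` is integral and smooth over `ℤ` or over a prime field.

(3) For each scheme `X` of finite type over `ℤ` there is a finite list of these matroids `M_j`, with moduli
spaces of dimension at most `dim X`, such that for all `n`: if the groups `K'_n(modS ℤ M_j)` are finitely
generated then `K'_n(X)` is finitely generated.

For example for `d = 2` the finite generation of `K'_n(X)` for arithmetic surfaces and for surfaces over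
finite fields (which is not known) is a statement on the regular moduli surfaces `modS ℤ M`. The earlier
reductions to cubic hypersurfaces, graph hypersurfaces and complements of arrangements raise the dimension,
and they need several or all degrees `n`, affine bundles and products with `𝔾_m`.

In the background is the theorem that each point of a scheme of finite type over `ℤ` lies on an immersed
moduli space `modS ℤ M`, `M` simple, and that the scheme is decomposed by a finite sequence of closed-open
decompositions into such moduli spaces (`Pool.Agent.Helper13.RM`: `onMod`, `config_listZ`). The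
universality theorem of Mnëv (in the versions of Sturmfels, Lafforgue, Vakil) gives realization spaces that
are open in `X × 𝔸^N`; here `X` itself is decomposed.
-/

set_option autoImplicit false

open CategoryTheory AlgebraicGeometry Pool.Agent.Y116.UV Pool.Agent.Z125.UN Pool.Agent.R904.CU
  Pool.Agent.Helper3.GU Pool.Agent.Helper13.RM

namespace Pool.Agent.Results.MP_e17fa799_al.PlanarConfigurations

variable (K : KPrime)

/-- `K'_n(X)` is finitely generated for all schemes `X` of finite type over `ℤ` and of dimension at most
`d`. -/
def AllDim (n d : ℕ) : Prop := ∀ (X : Scheme.{0}) (f : X ⟶ Spec (.of ℤ)), FinType ℤ X f →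
  topologicalKrullDim X ≤ d → AddGroup.FG (K.G n X)

/-- `K'_n(Spec A)` is finitely generated for all rings `A` of dimension at most `d` which are smooth over `ℤ`
or over a prime field. -/
def SmoothDim (n d : ℕ) : Prop := ∀ (A : Type) [CommRing A], SmoothZ A →
  ringKrullDim A ≤ d → AddGroup.FG (K.G n (Spec (.of A)))

/-- `K'_n(X)` is finitely generated for the moduli spaces `X` of planar configurations of dimension at most
`d` which are integral, and smooth over `ℤ` or over a prime field. -/
def ModuliDim (n d : ℕ) : Prop := ∀ (m : ℕ) (M : Matroid (Fin 4 ⊕ Fin m)), SmoothModZ d M →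
  AddGroup.FG (K.G n (modS ℤ M).left)

/-- Finite generation in one degree is closed under cutting. -/
lemma cut_degree (n : ℕ) : Cut False fun X : Sch ℤ => AddGroup.FG (K.G n X.left) where
  iso {X Y} _ e h := by
    obtain ⟨e⟩ := e
    exact fg_equiv (K.iso n _ _ ((Over.forget _).mapIso e)) h
  empty X hX := by
    have h := K.empty n X.left hX
    exact AddGroup.fg_of_finite
  total {Z X U} i j h ht hZ hU := by
    obtain ⟨a, b, d, h1, h2, h3, -⟩ := K.localization X.left Z.left U.left X.hom i.left j.left
      ⟨h.1, h.2⟩ ht.closed ht.opened ht.compl
    exact fg_exact (a n) (b n) (h1 n) hZ hU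

lemma allDim_iff (n d : ℕ) : AllDim K n d ↔
    ∀ X : Sch ℤ, FT False X → topologicalKrullDim X.left ≤ d → AddGroup.FG (K.G n X.left) :=
  ⟨fun h X hX hd => h X.left X.hom ⟨hX.1, hX.2⟩ hd,
    fun h X f hf hd => h (Over.mk f) ⟨hf.1, hf.2, fun h => h.elim⟩ hd⟩

lemma ft_of_smooth (A : Type) [CommRing A] [i : Algebra ℤ A] (h : SmoothZ A) :
    Algebra.FiniteType ℤ A := by
  rcases h with ⟨j, hj⟩ | ⟨p, hp, j, hj⟩
  · obtain rfl : i = j := Subsingleton.elim _ _
    infer_instance
  · obtain rfl : i = Ring.toIntAlgebra A := Subsingleton.elim _ _
    have h1 : Algebra.FiniteType ℤ (ZMod p) := inferInstance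
    have h2 : Algebra.FiniteType (ZMod p) A := inferInstance
    exact Algebra.FiniteType.trans h1 h2

theorem tfae (n d : ℕ) : List.TFAE [AllDim K n d, SmoothDim K n d, ModuliDim K n d] := by
  have hC := cut_degree K n
  tfae_have 1 → 2 := by
    intro h A _ hA hd
    have h1 := ft_of_smooth A hA
    rw [allDim_iff] at h
    refine h (aff ℤ A) (ft_aff False) ?_
    change topologicalKrullDim (PrimeSpectrum A) ≤ d
    rw [PrimeSpectrum.topologicalKrullDim_eq_ringKrullDim]
    exact hd
  tfae_have 2 → 1 := by
    intro h
    rw [allDim_iff]
    intro X hX hd
    refine cut_smooth (cut_dim hC d) (fun A _ _ hA hd => ?_) X hX hd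
    refine h A hA ?_
    rw [← PrimeSpectrum.topologicalKrullDim_eq_ringKrullDim]
    exact hd
  tfae_have 1 ↔ 3 := by
    rw [allDim_iff]
    exact config_iff_smoothZ hC d
  tfae_finish

lemma allFG_iff (n : ℕ) : K.AllFG n ↔
    ∀ (m : ℕ) (M : Matroid (Fin 4 ⊕ Fin m)), SmoothModZ ⊤ M →
      AddGroup.FG (K.G n (modS ℤ M).left) := by
  have h1 := config_iff_smoothZ (cut_degree K n) ⊤
  rw [← h1]
  exact ⟨fun h X hX _ => h X.left X.hom ⟨hX.1, hX.2⟩,
    fun h X f hf => h (Over.mk f) ⟨hf.1, hf.2, fun h => h.elim⟩ le_top⟩

lemma bass_all : K.Bass ↔ ∀ n, K.AllFG n := by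
  constructor
  · intro h n
    obtain ⟨m, hm, hc⟩ := (K.bass_iff.mp h) (n + 1)
    obtain ⟨d, rfl⟩ := Nat.exists_eq_add_of_le hm
    have h1 : K.AllFG (n + d) := K.allFG_of_cubicFG (n + d) (by
      have : n + d + 1 = n + 1 + d := by omega
      rw [this]
      exact hc)
    exact K.allFG_mono (Nat.le_add_right n d) h1
  · intro h X f hf _ n
    exact h n X f hf

/-- **The conjecture of Bass and moduli spaces of planar configurations.** See the explanations above. -/
theorem result :
    (∀ (K : KPrime) (n d : ℕ), List.TFAE [AllDim K n d, SmoothDim K n d, ModuliDim K n d]) ∧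
    (∀ (K : KPrime) (D : Set ℕ), D.Infinite → (K.Bass ↔ ∀ n ∈ D, ∀ (m : ℕ)
      (M : Matroid (Fin 4 ⊕ Fin m)), SmoothModZ ⊤ M → AddGroup.FG (K.G n (modS ℤ M).left))) ∧
    ∀ (X : Scheme.{0}) (f : X ⟶ Spec (.of ℤ)), FinType ℤ X f →
      ∃ L : List Mat, (∀ M ∈ L, SmoothModZ (topologicalKrullDim X) M.2) ∧
        ∀ (K : KPrime) (n : ℕ), (∀ M ∈ L, AddGroup.FG (K.G n (modS ℤ M.2).left)) →
          AddGroup.FG (K.G n X) := by
  refine ⟨fun K => tfae K, fun K D hD => ?_, fun X f hf => ?_⟩
  · rw [bass_all]
    constructor
    · intro h n _
      exact (allFG_iff K n).mp (h n)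
    · intro h n
      obtain ⟨m, hm, hnm⟩ := hD.exists_gt n
      exact K.allFG_mono hnm.le ((allFG_iff K m).mpr (h m hm))
  · obtain ⟨L, hL, h⟩ := config_listZ (sep := False) (Over.mk f) ⟨hf.1, hf.2, fun h => h.elim⟩
    exact ⟨L, hL, fun K n hM => h _ (cut_degree K n) hM⟩

end Pool.Agent.Results.MP_e17fa799_al.PlanarConfigurations
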